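import Pool.Agent.Helper71.PY.Goals

set_option autoImplicit false

namespace Pool.Agent.Helper82.PY

open Matrix Pool.Agent.Helper71.PY

theorem spm_mf (R : Type) [CommRing R] (n : ℕ) (S : Matrix (Fin n) (Fin n) R) (hS : Sᵀ = S)
    (hd : IsUnit S.det) : Sp (mf S) := by
  refine ⟨?_, ?_, ?_⟩
  · intro v w
    rw [mf_apply, mf_apply]
    rw [dotProduct_mulVec, ← mulVec_transpose, hS, dotProduct_comm]
  · rw [injective_iff_map_eq_zero (mf S)]
    intro v hv
    have h1 : ∀ w : Fin n → R, (S *ᵥ v) ⬝ᵥ w = 0 := by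
      intro w
      have h2 : mf S v w = 0 := by rw [hv]; rfl
      rw [mf_apply, dotProduct_mulVec, ← mulVec_transpose, hS] at h2
      exact h2
    have h3 : S *ᵥ v = 0 := by
      funext i
      have := h1 (Pi.single i 1)
      simpa using this
    have h4 : S⁻¹ *ᵥ (S *ᵥ v) = 0 := by rw [h3, mulVec_zero]
    rwa [mulVec_mulVec, nonsing_inv_mul _ hd, one_mulVec] at h4
  · intro f
    refine ⟨S⁻¹ *ᵥ (fun i => f (Pi.single i 1)), ?_⟩
    apply LinearMap.ext
    intro w
    change mf S _ w = f w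
    rw [mf_apply, dotProduct_mulVec, ← mulVec_transpose, hS, mulVec_mulVec,
      mul_nonsing_inv _ hd, one_mulVec]
    rw [LinearMap.pi_apply_eq_sum_univ f w]
    simp only [dotProduct, smul_eq_mul]
    refine Finset.sum_congr rfl fun i _ => ?_
    rw [mul_comm]
    congr 2
    funext j
    simp [Pi.single_apply, eq_comm]

theorem spm_os (R : Type) [CommRing R] (N N' : Type) [AddCommGroup N] [Module R N]
    [AddCommGroup N'] [Module R N'] (B : N →ₗ[R] N →ₗ[R] R) (B' : N' →ₗ[R] N' →ₗ[R] R)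
    (h : Sp B) (h' : Sp B') : Sp (os B B') := by
  refine ⟨?_, ?_, ?_⟩
  · intro v w
    simp [h.symm v.1 w.1, h'.symm v.2 w.2]
  · rw [injective_iff_map_eq_zero (os B B')]
    rintro ⟨a, b⟩ hv
    have h1 : B a = 0 := by
      apply LinearMap.ext
      intro w
      have h2 : os B B' (a, b) (w, 0) = 0 := by rw [hv]; rfl
      simpa using h2
    have h2 : B' b = 0 := by
      apply LinearMap.ext
      intro w
      have h2 : os B B' (a, b) (0, w) = 0 := by rw [hv]; rfl
      simpa using h2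
    have h3 : a = 0 := h.perf.1 (by simpa using h1)
    have h4 : b = 0 := h'.perf.1 (by simpa using h2)
    rw [h3, h4]
    rfl
  · intro f
    obtain ⟨a, ha⟩ := h.perf.2 (f ∘ₗ LinearMap.inl R N N')
    obtain ⟨b, hb⟩ := h'.perf.2 (f ∘ₗ LinearMap.inr R N N')
    refine ⟨(a, b), ?_⟩
    apply LinearMap.ext
    rintro ⟨v, w⟩
    change B a v + B' b w = f (v, w)
    change B a = _ at ha
    change B' b = _ at hb
    rw [ha, hb]
    simp only [LinearMap.comp_apply, LinearMap.inl_apply, LinearMap.inr_apply]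
    rw [← map_add]
    simp

theorem spm_hyp (R : Type) [CommRing R] : Sp (hyp R) := by
  refine ⟨?_, ?_, ?_⟩
  · intro v w
    simp
    ring
  · rw [injective_iff_map_eq_zero (hyp R)]
    rintro ⟨a, b⟩ hv
    have h1 : hyp R (a, b) (1, 0) = 0 := by rw [hv]; rfl
    have h2 : hyp R (a, b) (0, 1) = 0 := by rw [hv]; rfl
    simp at h1 h2
    rw [h1, h2]
    rfl
  · intro f
    refine ⟨(f (0, 1), f (1, 0)), ?_⟩
    apply LinearMap.ext
    rintro ⟨v, w⟩
    change f (0, 1) * w + f (1, 0) * v = f (v, w)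
    have : ((v, w) : R × R) = v • ((1, 0) : R × R) + w • ((0, 1) : R × R) := by simp
    rw [this, map_add, map_smul, map_smul]
    simp only [smul_eq_mul]
    ring

/-- **SPM.** -/
theorem spm : G_SPM := ⟨spm_mf, spm_os, spm_hyp⟩

end Pool.Agent.Helper82.PY
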